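import Mathlib
import Pool.Agent.H53.KhC

open Finset MeasureTheory Filter Topology

namespace Pool.Agent.Results.MP_1ea763_an.Full

theorem result : IsMeagre {ω : ℕ → Set.Ici (2:ℕ) | ∀ f : UnitAddCircle → ℝ, Integrable f → ∀ᵐ x : UnitAddCircle,
    Tendsto (fun N : ℕ => (1 / N : ℝ) * ∑ n ∈ range N, f ((∏ i ∈ range (n + 1), (ω i : ℕ)) • x)) atTop (𝓝 (∫ x, f x))} :=
  Pool.Agent.H53.Kh.meagre _ Set.self_mem_Ici (by norm_num) fun _ h => lt_of_lt_of_le two_pos h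

end Pool.Agent.Results.MP_1ea763_an.Full
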